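import Pool.Agent.Lib.MP_570bef_ntP.Four
import Pool.Agent.Lib.MP_570bef_nt.Basic

/-!
# Block C of the LV stream (mean value on the minor arcs implies a bound for all large `n`): definitions

`e x = exp (2 π i x)` is in `MP_2a816b_nt/Expo.lean`; `col`, `tup`, `sk` are in `MP_570bef_ntP/Bas.lean`; `IsSum`, `countSums` in `MP_570bef_nt/Defs.lean`.
-/

set_option autoImplicit false

namespace Pool.Agent.Lib.MP_570bef_ntLC

open Finset MeasureTheory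
open Pool.Agent.Lib.MP_2a816b_nt (e)
open Pool.Agent.Lib.MP_570bef_ntP (col tup sk)

noncomputable section

/-- the exponential sum `∑_{x ∈ S} e (α x^k)` -/
def fS (k : ℕ) (S : Finset ℕ) (α : ℝ) : ℂ := ∑ x ∈ S, e (α * (x : ℝ) ^ k)

/-- the major arcs: `|α - a/q| ≤ X^(1/5 - k)`, `q ≤ X^(1/5)` -/
def Mj (k X : ℕ) : Set ℝ :=
  {α | ∃ (q : ℕ) (a : ℤ), 1 ≤ q ∧ (q : ℝ) ^ 5 ≤ X ∧ (|α - a / q| * (X : ℝ) ^ k) ^ 5 ≤ X}

/-- the minor arc mean value with `2 s` variables from a set `S ⊆ [0, X]` -/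
def MinorMV (k s : ℕ) : Prop :=
  ∃ (C : ℝ) (X₀ : ℕ), ∀ X ≥ X₀, ∃ S : Finset ℕ, S.Nonempty ∧ (∀ x ∈ S, x ≤ X) ∧
    (∫ α in Set.Icc (0 : ℝ) 1 \ Mj k X, ‖fS k S α‖ ^ (2 * s)) * (X : ℝ) ^ k ≤
      C * (S.card : ℝ) ^ (2 * s)

end

theorem continuous_e : Continuous e := by
  unfold e
  fun_prop

theorem continuous_fS (k : ℕ) (S : Finset ℕ) : Continuous (fS k S) := by
  unfold fS
  exact continuous_finset_sum _ fun x _ => continuous_e.comp (by fun_prop)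

theorem norm_fS_le (k : ℕ) (S : Finset ℕ) (α : ℝ) : ‖fS k S α‖ ≤ S.card := by
  unfold fS
  refine (norm_sum_le _ _).trans (le_of_eq ?_)
  simp [Pool.Agent.Lib.MP_2a816b_nt.norm_e]

theorem measurableSet_Mj (k X : ℕ) : MeasurableSet (Mj k X) := by
  have h : Mj k X = ⋃ (q : ℕ), ⋃ (a : ℤ),
      {α : ℝ | 1 ≤ q ∧ (q : ℝ) ^ 5 ≤ X ∧ (|α - a / q| * (X : ℝ) ^ k) ^ 5 ≤ X} := by
    ext α
    simp [Mj]
  rw [h]
  refine MeasurableSet.iUnion fun q => MeasurableSet.iUnion fun a => ?_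
  by_cases h1 : 1 ≤ q ∧ (q : ℝ) ^ 5 ≤ X
  · have h2 : {α : ℝ | 1 ≤ q ∧ (q : ℝ) ^ 5 ≤ X ∧ (|α - a / q| * (X : ℝ) ^ k) ^ 5 ≤ X} =
        {α : ℝ | (|α - a / q| * (X : ℝ) ^ k) ^ 5 ≤ X} := by
      ext α
      simp [h1.1, h1.2]
    rw [h2]
    exact (isClosed_le (by fun_prop) (by fun_prop)).measurableSet
  · have h2 : {α : ℝ | 1 ≤ q ∧ (q : ℝ) ^ 5 ≤ X ∧ (|α - a / q| * (X : ℝ) ^ k) ^ 5 ≤ X} = ∅ := by
      ext α
      simp only [Set.mem_setOf_eq, Set.mem_empty_iff_false, iff_false]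
      rintro ⟨h3, h4, -⟩
      exact h1 ⟨h3, h4⟩
    rw [h2]
    exact MeasurableSet.empty

end Pool.Agent.Lib.MP_570bef_ntLC
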