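import Mathlib

/-!
# The integral over one major arc
-/

set_option autoImplicit false

namespace Pool.Agent.Lib.MP_570bef_ntLC

open MeasureTheory

theorem arc_cont (N c : ℝ) (hN : 0 < N) : Continuous fun α : ℝ => 1 / (1 + N * |α - c|) ^ 2 := by
  refine continuous_const.div (by fun_prop) fun α => ?_
  have : 0 < 1 + N * |α - c| := by positivity
  positivity

theorem int_arc (N c : ℝ) (hN : 0 < N) :
    ∫ α in Set.Icc (0 : ℝ) 1, 1 / (1 + N * |α - c|) ^ 2 ≤ 4 / N := by
  have hle : ∀ α : ℝ, 1 / (1 + N * |α - c|) ^ 2 ≤ (1 + (N * (α - c)) ^ 2)⁻¹ := by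
    intro α
    rw [one_div]
    apply inv_anti₀ (by positivity)
    have h1 : (N * (α - c)) ^ 2 = (N * |α - c|) ^ 2 := by
      rw [mul_pow, mul_pow, sq_abs]
    rw [h1]
    have h2 : 0 ≤ N * |α - c| := by positivity
    nlinarith
  have hint0 : Integrable (fun x : ℝ => (1 + x ^ 2)⁻¹) := integrable_inv_one_add_sq
  have hint1 : Integrable (fun α : ℝ => (1 + (N * (α - c)) ^ 2)⁻¹) := by
    have h1 := (hint0.comp_mul_left' hN.ne').comp_sub_right c
    exact h1
  have hval : ∫ α : ℝ, (1 + (N * (α - c)) ^ 2)⁻¹ = Real.pi / N := by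
    have h1 := integral_sub_right_eq_self (μ := volume) (fun x : ℝ => (1 + (N * x) ^ 2)⁻¹) c
    rw [h1]
    have h2 := Measure.integral_comp_mul_left (fun x : ℝ => (1 + x ^ 2)⁻¹) N
    rw [h2, integral_univ_inv_one_add_sq, abs_of_pos (inv_pos.2 hN), smul_eq_mul]
    field_simp
  calc ∫ α in Set.Icc (0 : ℝ) 1, 1 / (1 + N * |α - c|) ^ 2
      ≤ ∫ α in Set.Icc (0 : ℝ) 1, (1 + (N * (α - c)) ^ 2)⁻¹ :=
        integral_mono ((arc_cont N c hN).integrableOn_Icc) hint1.integrableOn hle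
    _ ≤ ∫ α : ℝ, (1 + (N * (α - c)) ^ 2)⁻¹ := by
        apply setIntegral_le_integral hint1
        exact Filter.Eventually.of_forall fun α => by positivity
    _ = Real.pi / N := hval
    _ ≤ 4 / N := by
        apply div_le_div_of_nonneg_right _ hN.le
        exact Real.pi_le_four

end Pool.Agent.Lib.MP_570bef_ntLC
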