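import Pool.Agent.Lib.MP_570bef_ntLC.Defs
import Pool.Agent.Lib.MP_570bef_ntLC.MajA
import Pool.Agent.Lib.MP_570bef_ntP.Fz

/-!
# The major arcs
-/

set_option autoImplicit false

namespace Pool.Agent.Lib.MP_570bef_ntLC

open Finset MeasureTheory
open Pool.Agent.Lib.MP_2a816b_nt (e)
open Pool.Agent.Lib.MP_570bef_ntP (f0_bound)

/-- lowest terms -/
theorem coprime_form (q : ℕ) (a : ℤ) (hq : 1 ≤ q) :
    ∃ (q' : ℕ) (a' : ℤ), 1 ≤ q' ∧ q' ≤ q ∧ IsCoprime a' (q' : ℤ) ∧ (a' : ℝ) / q' = a / q := by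
  obtain ⟨r, hr⟩ : ∃ r : ℚ, r = (a : ℚ) / q := ⟨_, rfl⟩
  refine ⟨r.den, r.num, r.den_pos, ?_, ?_, ?_⟩
  · have h1 : (r.den : ℤ) ∣ (q : ℤ) := by
      rw [hr]
      exact_mod_cast Rat.den_dvd a q
    have h2 : r.den ∣ q := by exact_mod_cast h1
    exact Nat.le_of_dvd hq h2
  · rw [Int.isCoprime_iff_gcd_eq_one]
    have := r.reduced
    unfold Nat.Coprime at this
    simpa [Int.gcd] using this
  · have h1 : ((r : ℚ) : ℝ) = (r.num : ℝ) / (r.den : ℝ) := Rat.cast_def r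
    rw [← h1, hr]
    push_cast
    rfl

/-- the pointwise bound on the major arcs -/
theorem point_bound (k : ℕ) (hk : 2 ≤ k) : ∃ C : ℝ, 1 ≤ C ∧ ∀ (X : ℕ) (α : ℝ), 1024 ≤ X →
    0 ≤ α → α ≤ 1 → α ∈ Mj k X → ∃ q a : ℕ, 1 ≤ q ∧ q ≤ X ∧ a ≤ 3 * q ∧
      ‖fS k (range X) α‖ ^ (10 * k) ≤ C * (X : ℝ) ^ (10 * k) *
        (1 / ((q : ℝ) ^ 2 * √q) * (1 / (1 + (X : ℝ) ^ k * |α + 1 - a / q|) ^ 2)) := by
  obtain ⟨C₀, hC₀, hf⟩ := f0_bound k hk
  refine ⟨C₀ ^ 3, one_le_pow₀ hC₀, ?_⟩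
  intro X α hX hα0 hα1 hM
  obtain ⟨q₀, a₀, hq₀, hq5, hy5⟩ := hM
  obtain ⟨q, a, hq, hqq, hcop, haq⟩ := coprime_form q₀ a₀ hq₀
  rw [← haq] at hy5
  have hX1024 : (1024 : ℝ) ≤ X := by exact_mod_cast hX
  have hX0 : (0 : ℝ) < X := by linarith
  have hX1 : (1 : ℝ) ≤ X := by linarith
  have hq1 : (1 : ℝ) ≤ q := by exact_mod_cast hq
  have hq0 : (0 : ℝ) < q := by linarith
  obtain ⟨u, hu⟩ : ∃ u : ℝ, u = (X : ℝ) ^ ((1 : ℝ) / 5) := ⟨_, rfl⟩
  have hu0 : 0 ≤ u := by rw [hu]; positivity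
  have hu5 : u ^ 5 = X := by
    rw [hu, ← Real.rpow_natCast, ← Real.rpow_mul hX0.le]
    norm_num
  have hu4 : 4 ≤ u := by
    by_contra h
    rw [not_le] at h
    have h1 : u ^ 5 < 4 ^ 5 := pow_lt_pow_left₀ h hu0 (by norm_num)
    rw [hu5] at h1
    norm_num at h1
    linarith
  have hqu : (q : ℝ) ≤ u := by
    have h1 : (q : ℝ) ≤ q₀ := by exact_mod_cast hqq
    have h2 : (q : ℝ) ^ 5 ≤ u ^ 5 := by
      rw [hu5]
      exact (pow_le_pow_left₀ hq0.le h1 5).trans hq5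
    exact (pow_le_pow_iff_left₀ hq0.le hu0 (by norm_num)).1 h2
  obtain ⟨y, hy⟩ : ∃ y : ℝ, y = (X : ℝ) ^ k * |α - a / q| := ⟨_, rfl⟩
  have hy0 : 0 ≤ y := by rw [hy]; positivity
  have hyu : y ≤ u := by
    have h2 : y ^ 5 ≤ u ^ 5 := by
      rw [hu5, hy, mul_comm]
      exact hy5
    exact (pow_le_pow_iff_left₀ hy0 hu0 (by norm_num)).1 h2
  have hQ : (q * (1 + (X : ℝ) ^ k * |α - a / q|)) ^ 2 ≤ X := by
    rw [← hy, ← hu5]
    have h1 : (q : ℝ) * (1 + y) ≤ u * (2 * u) :=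
      mul_le_mul hqu (by linarith) (by linarith) hu0
    have h2 : ((q : ℝ) * (1 + y)) ^ 2 ≤ (u * (2 * u)) ^ 2 :=
      pow_le_pow_left₀ (by positivity) h1 2
    refine h2.trans ?_
    have h3 : (u * (2 * u)) ^ 2 = 4 * u ^ 4 := by ring
    have h4 : u ^ 5 = u * u ^ 4 := by ring
    rw [h3, h4]
    exact mul_le_mul_of_nonneg_right hu4 (by positivity)
  have hfa := hf X α a q (by omega) hq hcop hQ
  rw [← hy] at hfa
  have hθ : |α - a / q| ≤ 1 := by
    have h1 : |α - a / q| * X ≤ y := by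
      rw [hy, mul_comm]
      apply mul_le_mul_of_nonneg_right _ (abs_nonneg _)
      exact le_self_pow₀ hX1 (by omega)
    have h2 : u ≤ X := by
      rw [← hu5]
      exact le_self_pow₀ (by linarith) (by norm_num)
    by_contra h
    rw [not_le] at h
    have h3 : (X : ℝ) < |α - a / q| * X := by nlinarith
    linarith
  rw [abs_le] at hθ
  have hlow : -(q : ℤ) ≤ a := by
    have h1 : -(q : ℝ) ≤ a := by
      have h2 : (-1 : ℝ) ≤ a / q := by linarith [hθ.2]
      rw [le_div_iff₀ hq0] at h2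
      linarith
    exact_mod_cast h1
  have hup : a ≤ 2 * (q : ℤ) := by
    have h1 : (a : ℝ) ≤ 2 * q := by
      have h2 : (a : ℝ) / q ≤ 2 := by linarith [hθ.1]
      rw [div_le_iff₀ hq0] at h2
      exact h2
    exact_mod_cast h1
  refine ⟨q, (a + q).toNat, hq, ?_, by omega, ?_⟩
  · have h1 : (q : ℝ) ≤ X := by
      refine hqu.trans ?_
      rw [← hu5]
      exact le_self_pow₀ (by linarith) (by norm_num)
    exact_mod_cast h1
  · have hcast : (((a + q).toNat : ℕ) : ℝ) = a + q := by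
      have h : (((a + q).toNat : ℕ) : ℤ) = a + q := Int.toNat_of_nonneg (by omega)
      exact_mod_cast h
    have harg : α + 1 - (((a + q).toNat : ℕ) : ℝ) / q = α - a / q := by
      rw [hcast]
      field_simp
      ring
    rw [harg, ← hy]
    obtain ⟨F, hF⟩ : ∃ F : ℝ, F = ‖fS k (range X) α‖ := ⟨_, rfl⟩
    have hF0 : 0 ≤ F := by rw [hF]; exact norm_nonneg _
    have hfa' : F ^ (4 * k) * (q * (1 + y)) ≤ C₀ * (X : ℝ) ^ (4 * k) := by
      rw [hF]
      exact hfa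
    rw [← hF]
    have h5 : (F ^ (4 * k) * (q * (1 + y))) ^ 5 ≤ (C₀ * (X : ℝ) ^ (4 * k)) ^ 5 :=
      pow_le_pow_left₀ (by positivity) hfa' 5
    have e1 : (F ^ (4 * k) * (q * (1 + y))) ^ 5 = (F ^ (10 * k)) ^ 2 * (q ^ 5 * (1 + y) ^ 5) := by
      have : 4 * k * 5 = 10 * k * 2 := by ring
      rw [mul_pow, ← pow_mul, this, pow_mul, mul_pow]
    have e2 : (C₀ * (X : ℝ) ^ (4 * k)) ^ 5 = C₀ ^ 5 * ((X : ℝ) ^ (10 * k)) ^ 2 := by
      have : 4 * k * 5 = 10 * k * 2 := by ring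
      rw [mul_pow, ← pow_mul, this, pow_mul]
    rw [e1, e2] at h5
    obtain ⟨G, hG⟩ : ∃ G : ℝ, G = F ^ (10 * k) := ⟨_, rfl⟩
    have hG0 : 0 ≤ G := by rw [hG]; positivity
    obtain ⟨A, hA⟩ : ∃ A : ℝ, A = (X : ℝ) ^ (10 * k) := ⟨_, rfl⟩
    have hA0 : 0 ≤ A := by rw [hA]; positivity
    rw [← hG, ← hA] at h5 ⊢
    have hsq : √(q : ℝ) ^ 2 = q := Real.sq_sqrt hq0.le
    have hsq0 : 0 < √(q : ℝ) := Real.sqrt_pos.2 hq0
    have h6 : G * ((q : ℝ) ^ 2 * √q * (1 + y) ^ 2) ≤ C₀ ^ 3 * A := by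
      rw [← pow_le_pow_iff_left₀ (by positivity) (by positivity) (two_ne_zero)]
      have e3 : (G * ((q : ℝ) ^ 2 * √q * (1 + y) ^ 2)) ^ 2 = G ^ 2 * (q ^ 5 * (1 + y) ^ 4) := by
        have : (G * ((q : ℝ) ^ 2 * √q * (1 + y) ^ 2)) ^ 2 =
          G ^ 2 * ((q : ℝ) ^ 4 * √(q : ℝ) ^ 2 * (1 + y) ^ 4) := by ring
        rw [this, hsq]
        ring
      rw [e3]
      have h7 : (1 + y) ^ 4 ≤ (1 + y) ^ 5 := pow_le_pow_right₀ (by linarith) (by norm_num)
      have h8 : C₀ ^ 5 ≤ C₀ ^ 6 := pow_le_pow_right₀ hC₀ (by norm_num)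
      calc G ^ 2 * ((q : ℝ) ^ 5 * (1 + y) ^ 4) ≤ G ^ 2 * ((q : ℝ) ^ 5 * (1 + y) ^ 5) := by
            apply mul_le_mul_of_nonneg_left _ (by positivity)
            exact mul_le_mul_of_nonneg_left h7 (by positivity)
        _ ≤ C₀ ^ 5 * A ^ 2 := h5
        _ ≤ C₀ ^ 6 * A ^ 2 := mul_le_mul_of_nonneg_right h8 (by positivity)
        _ = (C₀ ^ 3 * A) ^ 2 := by ring
    have h9 : 0 < (q : ℝ) ^ 2 * √q * (1 + y) ^ 2 := by positivity
    calc G ≤ C₀ ^ 3 * A / ((q : ℝ) ^ 2 * √q * (1 + y) ^ 2) := by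
          rw [le_div_iff₀ h9]
          exact h6
      _ = C₀ ^ 3 * A * (1 / ((q : ℝ) ^ 2 * √q) * (1 / (1 + y) ^ 2)) := by
          field_simp

theorem sum_three_halves (n : ℕ) :
    ∑ i ∈ range (n + 1), 1 / (((i : ℝ) + 1) * √((i : ℝ) + 1)) ≤ 3 - 2 / √((n : ℝ) + 1) := by
  induction n with
  | zero => simp; norm_num
  | succ n ih =>
    rw [Finset.sum_range_succ]
    have ha0 : (0 : ℝ) < (n : ℝ) + 1 := by positivity
    have hb0 : (0 : ℝ) < ((n + 1 : ℕ) : ℝ) + 1 := by positivity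
    obtain ⟨a, ha⟩ : ∃ a, a = √((n : ℝ) + 1) := ⟨_, rfl⟩
    obtain ⟨b, hb⟩ : ∃ b, b = √(((n + 1 : ℕ) : ℝ) + 1) := ⟨_, rfl⟩
    have hap : 0 < a := by rw [ha]; exact Real.sqrt_pos.2 ha0
    have hbp : 0 < b := by rw [hb]; exact Real.sqrt_pos.2 hb0
    have ha2 : a ^ 2 = (n : ℝ) + 1 := by rw [ha]; exact Real.sq_sqrt ha0.le
    have hb2 : b ^ 2 = ((n + 1 : ℕ) : ℝ) + 1 := by rw [hb]; exact Real.sq_sqrt hb0.le
    rw [← ha] at ih
    rw [← hb, ← hb2]
    have hdiff : b ^ 2 - a ^ 2 = 1 := by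
      rw [ha2, hb2]
      push_cast
      ring
    have hab : a ≤ b := by nlinarith
    have h1 : 1 / (b ^ 2 * b) ≤ 2 / a - 2 / b := by
      have e1 : 2 / a - 2 / b = 2 * (b - a) / (a * b) := by
        field_simp
      have e2 : b - a = 1 / (a + b) := by
        rw [eq_div_iff (by positivity)]
        linarith
      rw [e1, e2, mul_one_div, div_div, div_le_div_iff₀ (by positivity) (by positivity)]
      have h2 : (a + b) * (a * b) ≤ (2 * b) * (b * b) :=
        mul_le_mul (by linarith) (mul_le_mul_of_nonneg_right hab hbp.le) (by positivity)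
          (by positivity)
      linarith
    linarith

theorem major_int (k : ℕ) (hk : 2 ≤ k) : ∃ C : ℝ, 1 ≤ C ∧ ∀ X : ℕ, 1 ≤ X →
    (∫ α in Set.Icc (0 : ℝ) 1 ∩ Mj k X, ‖fS k (range X) α‖ ^ (10 * k)) * (X : ℝ) ^ k ≤
      C * (X : ℝ) ^ (10 * k) := by
  obtain ⟨C, hC, hpt⟩ := point_bound k hk
  refine ⟨48 * C + 1024 ^ k, ?_, ?_⟩
  · have : (0 : ℝ) ≤ 1024 ^ k := by positivity
    linarith
  intro X hX
  have hX1 : (1 : ℝ) ≤ X := by exact_mod_cast hX
  have hX0 : (0 : ℝ) < X := by linarith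
  have hmeas : MeasurableSet (Set.Icc (0 : ℝ) 1 ∩ Mj k X) :=
    measurableSet_Icc.inter (measurableSet_Mj k X)
  have hcontF : Continuous fun α : ℝ => ‖fS k (range X) α‖ ^ (10 * k) :=
    (continuous_fS k _).norm.pow _
  have hintF : IntegrableOn (fun α : ℝ => ‖fS k (range X) α‖ ^ (10 * k)) (Set.Icc 0 1) :=
    hcontF.integrableOn_Icc
  rcases Nat.lt_or_ge X 1024 with hlt | hge
  · have h1 : ∫ α in Set.Icc (0 : ℝ) 1 ∩ Mj k X, ‖fS k (range X) α‖ ^ (10 * k) ≤
        (X : ℝ) ^ (10 * k) := by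
      calc ∫ α in Set.Icc (0 : ℝ) 1 ∩ Mj k X, ‖fS k (range X) α‖ ^ (10 * k)
          ≤ ∫ α in Set.Icc (0 : ℝ) 1, ‖fS k (range X) α‖ ^ (10 * k) := by
            apply setIntegral_mono_set hintF
            · exact Filter.Eventually.of_forall fun α => by positivity
            · exact Filter.Eventually.of_forall fun α hα => hα.1
        _ ≤ ∫ _α in Set.Icc (0 : ℝ) 1, (X : ℝ) ^ (10 * k) := by
            apply setIntegral_mono hintF (by simp)
            intro α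
            apply pow_le_pow_left₀ (norm_nonneg _)
            have := norm_fS_le k (range X) α
            rwa [card_range] at this
        _ = (X : ℝ) ^ (10 * k) := by simp
    have h2 : (X : ℝ) ^ k ≤ 1024 ^ k := by
      apply pow_le_pow_left₀ hX0.le
      exact_mod_cast hlt.le
    have h3 : 0 ≤ 48 * C * (X : ℝ) ^ (10 * k) := by
      have : 0 ≤ C := by linarith
      positivity
    calc (∫ α in Set.Icc (0 : ℝ) 1 ∩ Mj k X, ‖fS k (range X) α‖ ^ (10 * k)) * (X : ℝ) ^ k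
        ≤ (X : ℝ) ^ (10 * k) * 1024 ^ k := mul_le_mul h1 h2 (by positivity) (by positivity)
      _ ≤ 48 * C * (X : ℝ) ^ (10 * k) + 1024 ^ k * (X : ℝ) ^ (10 * k) := by
          rw [mul_comm ((X : ℝ) ^ (10 * k)) (1024 ^ k)]
          linarith
      _ = _ := by ring
  · have hXk : (0 : ℝ) < (X : ℝ) ^ k := by positivity
    obtain ⟨A, hA⟩ : ∃ A : ℝ, A = C * (X : ℝ) ^ (10 * k) := ⟨_, rfl⟩
    have hA0 : 0 ≤ A := by
      rw [hA]
      have : 0 ≤ C := by linarith
      positivity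
    -- the majorant
    obtain ⟨w, hw⟩ : ∃ w : ℕ → ℕ → ℝ → ℝ, w = fun (i a : ℕ) (α : ℝ) =>
      1 / (((i : ℝ) + 1) ^ 2 * √((i : ℝ) + 1)) *
        (1 / (1 + (X : ℝ) ^ k * |α - ((a : ℝ) / ((i : ℝ) + 1) - 1)|) ^ 2) := ⟨_, rfl⟩
    have hw0 : ∀ i a α, 0 ≤ w i a α := by
      intro i a α
      rw [hw]
      positivity
    have hwc : ∀ i a, Continuous (w i a) := by
      intro i a
      rw [hw]
      exact continuous_const.mul (arc_cont _ _ hXk)
    have hwi : ∀ i a, ∫ α in Set.Icc (0 : ℝ) 1, w i a α ≤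
        1 / (((i : ℝ) + 1) ^ 2 * √((i : ℝ) + 1)) * (4 / (X : ℝ) ^ k) := by
      intro i a
      rw [hw]
      simp only
      rw [integral_const_mul]
      exact mul_le_mul_of_nonneg_left (int_arc _ _ hXk) (by positivity)
    have hpt2 : ∀ α ∈ Set.Icc (0 : ℝ) 1 ∩ Mj k X, ‖fS k (range X) α‖ ^ (10 * k) ≤
        A * ∑ i ∈ range (X + 1), ∑ a ∈ range (3 * i + 4), w i a α := by
      intro α hα
      obtain ⟨q, a, hq, hqX, haq, hb⟩ := hpt X α hge hα.1.1 hα.1.2 hα.2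
      rw [← hA] at hb
      refine hb.trans (mul_le_mul_of_nonneg_left ?_ hA0)
      have e1 : ((q - 1 : ℕ) : ℝ) + 1 = q := by
        have : ((q - 1 + 1 : ℕ) : ℝ) = q := by
          congr 1
          omega
        rw [← this]
        push_cast
        ring
      have e2 : 1 / ((q : ℝ) ^ 2 * √q) * (1 / (1 + (X : ℝ) ^ k * |α + 1 - a / q|) ^ 2) =
          w (q - 1) a α := by
        rw [hw]
        simp only [e1]
        have e3 : α - ((a : ℝ) / q - 1) = α + 1 - a / q := by ring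
        rw [e3]
      rw [e2]
      refine le_trans ?_ (Finset.single_le_sum
        (f := fun i => ∑ a ∈ range (3 * i + 4), w i a α)
        (fun i _ => Finset.sum_nonneg fun a _ => hw0 i a α)
        (mem_range.2 (by omega : q - 1 < X + 1)))
      exact Finset.single_le_sum (f := fun a => w (q - 1) a α) (fun a _ => hw0 _ a α)
        (mem_range.2 (by omega : a < 3 * (q - 1) + 4))
    have hWint : IntegrableOn (fun α => A * ∑ i ∈ range (X + 1), ∑ a ∈ range (3 * i + 4), w i a α)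
        (Set.Icc (0 : ℝ) 1) := by
      apply Continuous.integrableOn_Icc
      exact continuous_const.mul (continuous_finset_sum _ fun i _ =>
        continuous_finset_sum _ fun a _ => hwc i a)
    have h1 : ∫ α in Set.Icc (0 : ℝ) 1 ∩ Mj k X, ‖fS k (range X) α‖ ^ (10 * k) ≤
        A * (48 / (X : ℝ) ^ k) := by
      calc ∫ α in Set.Icc (0 : ℝ) 1 ∩ Mj k X, ‖fS k (range X) α‖ ^ (10 * k)
          ≤ ∫ α in Set.Icc (0 : ℝ) 1 ∩ Mj k X,
              A * ∑ i ∈ range (X + 1), ∑ a ∈ range (3 * i + 4), w i a α := by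
            apply setIntegral_mono_on (hintF.mono_set Set.inter_subset_left)
              (hWint.mono_set Set.inter_subset_left) hmeas hpt2
        _ ≤ ∫ α in Set.Icc (0 : ℝ) 1,
              A * ∑ i ∈ range (X + 1), ∑ a ∈ range (3 * i + 4), w i a α := by
            apply setIntegral_mono_set hWint
            · refine Filter.Eventually.of_forall fun α => ?_
              exact mul_nonneg hA0 (Finset.sum_nonneg fun i _ =>
                Finset.sum_nonneg fun a _ => hw0 i a α)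
            · exact Filter.Eventually.of_forall fun α hα => hα.1
        _ = A * ∑ i ∈ range (X + 1), ∑ a ∈ range (3 * i + 4),
              ∫ α in Set.Icc (0 : ℝ) 1, w i a α := by
            rw [integral_const_mul, integral_finset_sum _ (fun i _ =>
              integrable_finset_sum _ fun a _ => (hwc i a).integrableOn_Icc)]
            congr 1
            refine sum_congr rfl fun i _ => ?_
            rw [integral_finset_sum _ (fun a _ => (hwc i a).integrableOn_Icc)]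
        _ ≤ A * ∑ i ∈ range (X + 1), 16 / (X : ℝ) ^ k * (1 / (((i : ℝ) + 1) * √((i : ℝ) + 1))) := by
            apply mul_le_mul_of_nonneg_left _ hA0
            refine Finset.sum_le_sum fun i _ => ?_
            refine (Finset.sum_le_sum fun a _ => hwi i a).trans ?_
            rw [Finset.sum_const, card_range, nsmul_eq_mul]
            have hi0 : (0 : ℝ) < (i : ℝ) + 1 := by positivity
            have hs0 : 0 < √((i : ℝ) + 1) := Real.sqrt_pos.2 hi0
            have e1 : 16 / (X : ℝ) ^ k * (1 / (((i : ℝ) + 1) * √((i : ℝ) + 1))) =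
                (4 * ((i : ℝ) + 1)) * (1 / (((i : ℝ) + 1) ^ 2 * √((i : ℝ) + 1)) *
                  (4 / (X : ℝ) ^ k)) := by
              field_simp
              ring
            rw [e1]
            apply mul_le_mul_of_nonneg_right _ (by positivity)
            push_cast
            linarith
        _ ≤ A * (48 / (X : ℝ) ^ k) := by
            apply mul_le_mul_of_nonneg_left _ hA0
            rw [← Finset.mul_sum]
            have h3 := sum_three_halves X
            have h4 : 0 ≤ 2 / √((X : ℝ) + 1) := by positivity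
            have h5 : 16 / (X : ℝ) ^ k * 3 = 48 / (X : ℝ) ^ k := by ring
            rw [← h5]
            exact mul_le_mul_of_nonneg_left (by linarith) (by positivity)
    calc (∫ α in Set.Icc (0 : ℝ) 1 ∩ Mj k X, ‖fS k (range X) α‖ ^ (10 * k)) * (X : ℝ) ^ k
        ≤ A * (48 / (X : ℝ) ^ k) * (X : ℝ) ^ k := mul_le_mul_of_nonneg_right h1 hXk.le
      _ = 48 * C * (X : ℝ) ^ (10 * k) := by
          rw [hA]
          field_simp
      _ ≤ (48 * C + 1024 ^ k) * (X : ℝ) ^ (10 * k) := by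
          apply mul_le_mul_of_nonneg_right _ (by positivity)
          have : (0 : ℝ) ≤ 1024 ^ k := by positivity
          linarith

end Pool.Agent.Lib.MP_570bef_ntLC
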