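import Pool.Agent.Lib.MP_570bef_ntLC.Prod
import Pool.Agent.Lib.MP_570bef_ntLC.MajB
import Pool.Agent.Lib.MP_570bef_nt.Equiv

/-!
# From the minor arc mean value to all large integers
-/

set_option autoImplicit false

namespace Pool.Agent.Lib.MP_570bef_ntLC

open Finset MeasureTheory
open Pool.Agent.Lib.MP_2a816b_nt (e)
open Pool.Agent.Lib.MP_570bef_ntP (all_scales)
open Pool.Agent.Lib.MP_570bef_nt (IsSum countSums)

/-- positive density -/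
theorem density (k s : ℕ) (hk : 2 ≤ k) (h : MinorMV k s) :
    ∃ c N₁ : ℕ, ∀ N ≥ N₁, N ≤ c * countSums k (s + 5 * k) 0 N := by
  obtain ⟨C, X₀, hMV⟩ := h
  obtain ⟨C', hC', hmaj⟩ := major_int k hk
  obtain ⟨c₁, hc₁⟩ := exists_nat_ge (C + C')
  apply all_scales k (s + 5 * k) k (s + 5 * k + 1) c₁ (by omega) (by omega)
  refine ⟨X₀ + 1, fun X hX => ?_⟩
  obtain ⟨S, hS, hSX, hint⟩ := hMV X (by omega)
  have hX1 : 1 ≤ X := by omega
  have hXr : (0 : ℝ) < X := by exact_mod_cast hX1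
  have hXk : (0 : ℝ) < (X : ℝ) ^ k := by positivity
  have hcf : Continuous fun α : ℝ => ‖fS k S α‖ ^ (2 * s) := (continuous_fS k S).norm.pow _
  have hcg : Continuous fun α : ℝ => ‖fS k (range X) α‖ ^ (2 * (5 * k)) :=
    (continuous_fS k _).norm.pow _
  have hcfg : Continuous fun α : ℝ => ‖fS k S α‖ ^ (2 * s) * ‖fS k (range X) α‖ ^ (2 * (5 * k)) :=
    hcf.mul hcg
  have hiI : IntegrableOn
      (fun α : ℝ => ‖fS k S α‖ ^ (2 * s) * ‖fS k (range X) α‖ ^ (2 * (5 * k))) (Set.Icc 0 1) :=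
    hcfg.integrableOn_Icc
  have hsplit := integral_inter_add_diff (measurableSet_Mj k X) hiI
  have hf1 : ∀ α, ‖fS k S α‖ ^ (2 * s) ≤ (S.card : ℝ) ^ (2 * s) := fun α =>
    pow_le_pow_left₀ (norm_nonneg _) (norm_fS_le k S α) _
  have hg1 : ∀ α, ‖fS k (range X) α‖ ^ (2 * (5 * k)) ≤ (X : ℝ) ^ (2 * (5 * k)) := fun α => by
    apply pow_le_pow_left₀ (norm_nonneg _)
    have := norm_fS_le k (range X) α
    rwa [card_range] at this
  have h1 : (∫ α in Set.Icc (0 : ℝ) 1 \ Mj k X,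
      ‖fS k S α‖ ^ (2 * s) * ‖fS k (range X) α‖ ^ (2 * (5 * k))) * (X : ℝ) ^ k ≤
      C * ((S.card : ℝ) ^ (2 * s) * (X : ℝ) ^ (2 * (5 * k))) := by
    have h2 : ∫ α in Set.Icc (0 : ℝ) 1 \ Mj k X,
        ‖fS k S α‖ ^ (2 * s) * ‖fS k (range X) α‖ ^ (2 * (5 * k)) ≤
        (∫ α in Set.Icc (0 : ℝ) 1 \ Mj k X, ‖fS k S α‖ ^ (2 * s)) * (X : ℝ) ^ (2 * (5 * k)) := by
      rw [← integral_mul_const]
      apply setIntegral_mono (hiI.mono_set Set.diff_subset)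
        ((hcf.integrableOn_Icc.mono_set Set.diff_subset).mul_const _)
      intro α
      exact mul_le_mul_of_nonneg_left (hg1 α) (by positivity)
    calc (∫ α in Set.Icc (0 : ℝ) 1 \ Mj k X,
          ‖fS k S α‖ ^ (2 * s) * ‖fS k (range X) α‖ ^ (2 * (5 * k))) * (X : ℝ) ^ k
        ≤ ((∫ α in Set.Icc (0 : ℝ) 1 \ Mj k X, ‖fS k S α‖ ^ (2 * s)) *
            (X : ℝ) ^ (2 * (5 * k))) * (X : ℝ) ^ k := mul_le_mul_of_nonneg_right h2 hXk.le
      _ = ((∫ α in Set.Icc (0 : ℝ) 1 \ Mj k X, ‖fS k S α‖ ^ (2 * s)) * (X : ℝ) ^ k) *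
            (X : ℝ) ^ (2 * (5 * k)) := by ring
      _ ≤ (C * (S.card : ℝ) ^ (2 * s)) * (X : ℝ) ^ (2 * (5 * k)) :=
          mul_le_mul_of_nonneg_right hint (by positivity)
      _ = _ := by ring
  have h3 : (∫ α in Set.Icc (0 : ℝ) 1 ∩ Mj k X,
      ‖fS k S α‖ ^ (2 * s) * ‖fS k (range X) α‖ ^ (2 * (5 * k))) * (X : ℝ) ^ k ≤
      C' * ((S.card : ℝ) ^ (2 * s) * (X : ℝ) ^ (2 * (5 * k))) := by
    have h2 : ∫ α in Set.Icc (0 : ℝ) 1 ∩ Mj k X,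
        ‖fS k S α‖ ^ (2 * s) * ‖fS k (range X) α‖ ^ (2 * (5 * k)) ≤
        (S.card : ℝ) ^ (2 * s) *
          (∫ α in Set.Icc (0 : ℝ) 1 ∩ Mj k X, ‖fS k (range X) α‖ ^ (2 * (5 * k))) := by
      rw [← integral_const_mul]
      apply setIntegral_mono (hiI.mono_set Set.inter_subset_left)
        ((hcg.integrableOn_Icc.mono_set Set.inter_subset_left).const_mul _)
      intro α
      exact mul_le_mul_of_nonneg_right (hf1 α) (by positivity)
    have h4 := hmaj X hX1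
    have e1 : 10 * k = 2 * (5 * k) := by ring
    rw [e1] at h4
    calc (∫ α in Set.Icc (0 : ℝ) 1 ∩ Mj k X,
          ‖fS k S α‖ ^ (2 * s) * ‖fS k (range X) α‖ ^ (2 * (5 * k))) * (X : ℝ) ^ k
        ≤ ((S.card : ℝ) ^ (2 * s) *
          (∫ α in Set.Icc (0 : ℝ) 1 ∩ Mj k X, ‖fS k (range X) α‖ ^ (2 * (5 * k)))) *
            (X : ℝ) ^ k := mul_le_mul_of_nonneg_right h2 hXk.le
      _ = (S.card : ℝ) ^ (2 * s) *
          ((∫ α in Set.Icc (0 : ℝ) 1 ∩ Mj k X, ‖fS k (range X) α‖ ^ (2 * (5 * k))) *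
            (X : ℝ) ^ k) := by ring
      _ ≤ (S.card : ℝ) ^ (2 * s) * (C' * (X : ℝ) ^ (2 * (5 * k))) :=
          mul_le_mul_of_nonneg_left h4 (by positivity)
      _ = _ := by ring
  have h5 : (∫ α in Set.Icc (0 : ℝ) 1,
      ‖fS k S α‖ ^ (2 * s) * ‖fS k (range X) α‖ ^ (2 * (5 * k))) * (X : ℝ) ^ k ≤
      (C + C') * ((S.card : ℝ) ^ (2 * s) * ((range X).card : ℝ) ^ (2 * (5 * k))) := by
    rw [← hsplit, add_mul, card_range]
    calc _ ≤ C' * ((S.card : ℝ) ^ (2 * s) * (X : ℝ) ^ (2 * (5 * k))) +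
          C * ((S.card : ℝ) ^ (2 * s) * (X : ℝ) ^ (2 * (5 * k))) := add_le_add h3 h1
      _ = _ := by ring
  have h6 := many_values k s (5 * k) S (range X) (C + C') X hX1 hS
    ⟨0, mem_range.2 (by omega)⟩ hSX (fun y hy => (mem_range.1 hy).le) h5
  have h7 : (X : ℝ) ^ k ≤ c₁ * countSums k (s + 5 * k) 0 ((s + 5 * k + 1) * X ^ k) :=
    h6.trans (mul_le_mul_of_nonneg_right hc₁ (Nat.cast_nonneg _))
  exact_mod_cast h7

/-- all large integers -/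
theorem all_large (k s : ℕ) (hk : 2 ≤ k) (h : MinorMV k s) :
    ∃ n₀, ∀ n ≥ n₀, IsSum k (2 * s + 14 * k + 2) n := by
  obtain ⟨Ω, hΩ, hmain, -⟩ := Pool.Agent.Lib.MP_570bef_nt.main
  obtain ⟨c, N₁, hN⟩ := density k s hk h
  obtain ⟨N₂, hN₂⟩ := Filter.tendsto_atTop_atTop.1 (hΩ k) c
  obtain ⟨n₀, hn⟩ := hmain k (s + 5 * k) (by omega)
    ⟨max N₁ N₂, fun N hNN => (hN N ((le_max_left _ _).trans hNN)).trans
      (Nat.mul_le_mul_right _ (hN₂ N ((le_max_right _ _).trans hNN)))⟩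
  refine ⟨n₀, fun n hnn => ?_⟩
  have h1 := hn n hnn
  have e1 : 2 * (s + 5 * k) + 4 * k + 2 = 2 * s + 14 * k + 2 := by ring
  rwa [e1] at h1

theorem isSum_four_squares (n : ℕ) : IsSum 2 4 n := by
  obtain ⟨a, b, c, d, h⟩ := Nat.sum_four_squares n
  refine ⟨![a, b, c, d], ?_⟩
  rw [Fin.sum_univ_four]
  simpa using h.symm

/-- the frozen statement from the minor arc mean values -/
theorem final (h : ∀ k : ℕ, 3 ≤ k → ∃ s : ℕ, 2 * s + 14 * k + 2 ≤ 100 * k ∧ MinorMV k s) :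
    ∀ k : ℕ, 1 ≤ k → ∃ N : ℕ, ∀ n : ℕ, N ≤ n →
      ∃ x : Fin (100 * k) → ℕ, ∑ i, x i ^ k = n := by
  intro k hk
  have key : ∃ N : ℕ, ∀ n : ℕ, N ≤ n → IsSum k (100 * k) n := by
    rcases Nat.lt_or_ge k 3 with hk3 | hk3
    · have h12 : k = 1 ∨ k = 2 := by omega
      rcases h12 with rfl | rfl
      · refine ⟨0, fun n _ => ?_⟩
        have h1 : IsSum 1 1 n := ⟨fun _ => n, by simp⟩
        exact h1.mono le_rfl (by norm_num)
      · refine ⟨0, fun n _ => ?_⟩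
        exact (isSum_four_squares n).mono (by norm_num) (by norm_num)
    · obtain ⟨s, hs, hMV⟩ := h k hk3
      obtain ⟨n₀, hn⟩ := all_large k s (by omega) hMV
      exact ⟨n₀, fun n hnn => (hn n hnn).mono hk hs⟩
  obtain ⟨N, hN⟩ := key
  refine ⟨N, fun n hn => ?_⟩
  obtain ⟨x, hx⟩ := hN n hn
  exact ⟨x, hx.symm⟩

end Pool.Agent.Lib.MP_570bef_ntLC
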