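import Pool.Agent.Lib.MP_570bef_ntLC.Dens
import Pool.Agent.Lib.MP_570bef_ntLV.A3
import Pool.Agent.Lib.MP_570bef_ntLV.BAs
import Pool.Agent.Lib.MP_570bef_ntLV.FNu
import Pool.Agent.Lib.MP_570bef_ntLV.Hk
import Pool.Agent.Lib.MP_570bef_ntLG.Pr
import Pool.Agent.Lib.MP_570bef_ntLG.Ns

/-!
# Assembly: `G(k) ≤ 92 k + 2`
-/

set_option autoImplicit false

namespace Pool.Agent.Lib.MP_570bef_ntLC

open Finset
open Pool.Agent.Lib.MP_570bef_ntLV (Blk PS lev fs step_nu pointwise)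
open Pool.Agent.Lib.MP_570bef_ntLG (exists_blk glue_ns)
open Pool.Agent.Lib.MP_570bef_ntLM (Adm Step)
open Pool.Agent.Lib.MP_570bef_nt (IsSum)

theorem adm_le (k : ℕ) (n m : ℕ) (l : ℝ) (hmn : m < n) (hl : 0 ≤ l) (h : Adm k 4 n m l) :
    l ≤ n := by
  have hm0 : (0 : ℝ) ≤ m := Nat.cast_nonneg m
  have hmn' : (m : ℝ) < n := by exact_mod_cast hmn
  rcases h with h | ⟨ρ, hρ, -, -, h⟩
  · have h1 : 0 ≤ ((k : ℝ) + 2) * m := by positivity
    linarith
  · have h1 : (1 : ℝ) ≤ ρ ^ 4 := one_le_pow₀ (by linarith)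
    have h2 : l + 4 ≤ (l + 4) * ρ ^ 4 := le_mul_of_one_le_right (by linarith) h1
    have h3 : (1 / 10 ^ 8 : ℝ) * ((n : ℝ) - m) ≤ 1 * ((n : ℝ) - m) :=
      mul_le_mul_of_nonneg_right (by norm_num) (by linarith)
    linarith

theorem step_all (k : ℕ) (hk : 3 ≤ k) (M : ℕ) (C : ℝ) (_hM : 1 ≤ M) (hC : 0 < C) :
    ∃ P0 : ℕ, ∀ P ≥ P0, ∀ PP : ℕ → Finset ℕ, LVA.Many M C P PP →
      Step k M 4 P (LVA.nu k PP P) := by
  obtain ⟨P1, h1⟩ := step_nu k M (by omega) (max C 1) (le_max_right _ _) 1 one_pos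
  obtain ⟨P2, h2⟩ := glue_ns k M hk 1 4 zero_le_one (by norm_num)
    (Pool.Agent.Lib.MP_570bef_ntLV.H.high_all k (by omega))
  refine ⟨max (max P1 P2) 2, fun P hP PP hMany n m l hn hm hmn hl hA => ?_⟩
  have hP1 : P1 ≤ P := ((le_max_left _ _).trans (le_max_left _ _)).trans hP
  have hP2 : P2 ≤ P := ((le_max_right _ _).trans (le_max_left _ _)).trans hP
  have hP3 : 2 ≤ P := (le_max_right _ _).trans hP
  have hPr : (1 : ℝ) < P := by exact_mod_cast (by omega : 1 < P)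
  have hP0 : (0 : ℝ) < P := by linarith
  have hlog : 0 < Real.log P := Real.log_pos hPr
  have hcard : ∀ i < M, (P : ℝ) / (max C 1 * Real.log P) ≤ (PP i).card := by
    intro i hi
    refine le_trans ?_ (hMany.2 i hi)
    apply div_le_div_of_nonneg_left hP0.le (by positivity)
    exact mul_le_mul_of_nonneg_right (le_max_left _ _) hlog.le
  have hlM : l ≤ M := (adm_le k n m l hmn hl hA).trans (by exact_mod_cast hn)
  obtain ⟨j, i, hj, hi0, hi, hnu⟩ := h1 P hP1 PP hMany.1 hcard n m l hn hm hmn hl hlM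
    (fun J' hJ' D hD => by
      obtain ⟨-, -, h3, h4⟩ := h2 P hP2 PP hMany.1 n m l hn hm hmn hl hA J' hJ' D hD
      refine ⟨?_, h4⟩
      rw [Nat.cast_pow] at h3
      exact h3)
  refine ⟨j, i, hj, hi0, by linarith, ?_⟩
  refine le_trans (show LVA.nu k PP P n l ≤ _ from hnu) ?_
  refine mul_le_mul_of_nonneg_right ?_ (LVA.nu_nonneg k PP P (n - m) i)
  exact Real.rpow_le_rpow_of_exponent_le hPr.le (by linarith)

/-- **the minor arc mean value with `78 k` variables** -/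
theorem minorMV (k : ℕ) (hk : 3 ≤ k) : MinorMV k (39 * k) := by
  refine LVA.minorMV_final k hk 4 (1 / 400) (by norm_num) (by norm_num) (by norm_num) ?_
    (step_all k hk) ?_
  · intro M _
    obtain ⟨C, hC, P0, _, h⟩ := exists_blk M
    refine ⟨C, by linarith, P0, fun P hP => ?_⟩
    obtain ⟨PP, hB, hcard, -⟩ := h P hP
    exact ⟨PP, hB, hcard⟩
  · intro M C hM hMe hC
    obtain ⟨P0, h⟩ := pointwise k hk (1 / 400) le_rfl M C hM hMe hC
    exact ⟨P0, fun P hP PP hPP hlev α hα => h P hP PP hPP.1 hPP.2 hlev α hα⟩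

/-- **`G(k) ≤ 92 k + 2`** for every `k ≥ 3` -/
theorem waring_linear (k : ℕ) (hk : 3 ≤ k) : ∃ n₀, ∀ n ≥ n₀, IsSum k (92 * k + 2) n := by
  obtain ⟨n₀, h⟩ := all_large k (39 * k) (by omega) (minorMV k hk)
  refine ⟨n₀, fun n hn => ?_⟩
  have h1 := h n hn
  have e1 : 2 * (39 * k) + 14 * k + 2 = 92 * k + 2 := by ring
  rwa [e1] at h1

/-- **the frozen statement** -/
theorem waring : ∀ k : ℕ, 1 ≤ k → ∃ N : ℕ, ∀ n : ℕ, N ≤ n →
    ∃ x : Fin (100 * k) → ℕ, ∑ i, x i ^ k = n :=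
  final fun k hk => ⟨39 * k, by omega, minorMV k hk⟩

end Pool.Agent.Lib.MP_570bef_ntLC
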