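import Pool.Agent.Lib.MP_570bef_ntLC.Defs

/-!
# Orthogonality over `[0, 1]`
-/

set_option autoImplicit false

namespace Pool.Agent.Lib.MP_570bef_ntLC

open Finset MeasureTheory
open Pool.Agent.Lib.MP_2a816b_nt (e e_add conj_e e_int e_zero norm_e)
open Pool.Agent.Lib.MP_570bef_ntP (col tup sk)

theorem int_e (n : ℤ) : ∫ α in Set.Icc (0 : ℝ) 1, e (α * n) = if n = 0 then 1 else 0 := by
  rw [integral_Icc_eq_integral_Ioc, ← intervalIntegral.integral_of_le zero_le_one]
  split_ifs with h
  · subst h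
    simp [e_zero]
  · have h1 : ∀ α : ℝ, e (α * n) = Complex.exp ((2 * Real.pi * n * Complex.I) * α) := by
      intro α
      unfold e
      congr 1
      push_cast
      ring
    simp_rw [h1]
    have h2 : (2 * (Real.pi : ℂ) * n * Complex.I) ≠ 0 := by
      have h3 : (n : ℂ) ≠ 0 := by exact_mod_cast h
      have h4 : (Real.pi : ℂ) ≠ 0 := by exact_mod_cast Real.pi_ne_zero
      simp [h3, h4]
    rw [integral_exp_mul_complex h2]
    have h5 : Complex.exp (2 * (Real.pi : ℂ) * n * Complex.I * ((1 : ℝ) : ℂ)) = 1 := by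
      have h6 := e_int n
      unfold e at h6
      rw [← h6]
      congr 1
      push_cast
      ring
    rw [h5]
    simp

theorem int_sq {ι : Type*} (S : Finset ι) (φ : ι → ℕ) :
    ∫ α in Set.Icc (0 : ℝ) 1, ‖∑ i ∈ S, e (α * φ i)‖ ^ 2 = col S φ := by
  classical
  have h1 : ((∫ α in Set.Icc (0 : ℝ) 1, ‖∑ i ∈ S, e (α * φ i)‖ ^ 2 : ℝ) : ℂ) = (col S φ : ℂ) := by
    rw [← integral_complex_ofReal]
    have h2 : ∀ α : ℝ, (((‖∑ i ∈ S, e (α * φ i)‖ ^ 2 : ℝ)) : ℂ) =
        ∑ i ∈ S, ∑ j ∈ S, e (α * (((φ i : ℤ) - φ j : ℤ) : ℝ)) := by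
      intro α
      push_cast
      rw [← Complex.mul_conj', map_sum, sum_mul_sum]
      refine sum_congr rfl fun i _ => sum_congr rfl fun j _ => ?_
      rw [conj_e, ← e_add]
      congr 1
      push_cast
      ring
    simp_rw [h2]
    have hint : ∀ n : ℤ, IntegrableOn (fun α : ℝ => e (α * n)) (Set.Icc 0 1) := fun n =>
      (continuous_e.comp (by fun_prop)).integrableOn_Icc
    rw [integral_finset_sum _ (fun i _ => integrable_finset_sum _ fun j _ => hint _)]
    have h3 : ∀ i ∈ S, (∫ α in Set.Icc (0 : ℝ) 1, ∑ j ∈ S, e (α * (((φ i : ℤ) - φ j : ℤ) : ℝ))) =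
        ∑ j ∈ S, if φ i = φ j then (1 : ℂ) else 0 := by
      intro i _
      rw [integral_finset_sum _ (fun j _ => hint _)]
      refine sum_congr rfl fun j _ => ?_
      rw [int_e]
      by_cases hij : φ i = φ j
      · rw [if_pos hij, if_pos]
        rw [hij]
        simp
      · rw [if_neg hij, if_neg]
        intro h4
        apply hij
        omega
    rw [sum_congr rfl h3]
    unfold col
    rw [card_filter, sum_product]
    push_cast
    rfl
  exact_mod_cast h1

end Pool.Agent.Lib.MP_570bef_ntLC
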