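import Pool.Agent.Lib.MP_570bef_ntLC.Orth
import Pool.Agent.Lib.MP_570bef_ntP.CntA

/-!
# Many sums of `s + t` `k`-th powers
-/

set_option autoImplicit false

namespace Pool.Agent.Lib.MP_570bef_ntLC

open Finset MeasureTheory
open Pool.Agent.Lib.MP_2a816b_nt (e e_add)
open Pool.Agent.Lib.MP_570bef_ntP (col tup sk sum_tup card_sq_le card_tup sums card_sums)
open Pool.Agent.Lib.MP_570bef_nt (IsSum countSums)

theorem int_prod (k s t : ℕ) (S Y : Finset ℕ) :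
    ∫ α in Set.Icc (0 : ℝ) 1, ‖fS k S α‖ ^ (2 * s) * ‖fS k Y α‖ ^ (2 * t) =
      col (tup s S ×ˢ tup t Y) (fun w => sk k w.1 + sk k w.2) := by
  rw [← int_sq]
  refine integral_congr_ae (Filter.Eventually.of_forall fun α => ?_)
  show ‖fS k S α‖ ^ (2 * s) * ‖fS k Y α‖ ^ (2 * t) =
    ‖∑ i ∈ tup s S ×ˢ tup t Y, e (α * ((sk k i.1 + sk k i.2 : ℕ) : ℝ))‖ ^ 2
  have h1 : ∑ i ∈ tup s S ×ˢ tup t Y, e (α * ((sk k i.1 + sk k i.2 : ℕ) : ℝ)) =
      fS k S α ^ s * fS k Y α ^ t := by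
    unfold fS
    rw [← sum_tup, ← sum_tup, sum_mul_sum, ← sum_product']
    refine sum_congr rfl fun w _ => ?_
    rw [← e_add]
    congr 1
    push_cast
    ring
  rw [h1, norm_mul, norm_pow, norm_pow, mul_pow, ← pow_mul, ← pow_mul, mul_comm s 2, mul_comm t 2]

theorem many_values (k s t : ℕ) (S Y : Finset ℕ) (K : ℝ) (X : ℕ) (hX : 1 ≤ X)
    (hS : S.Nonempty) (hY : Y.Nonempty) (hSX : ∀ x ∈ S, x ≤ X) (hYX : ∀ y ∈ Y, y ≤ X)
    (h : (∫ α in Set.Icc (0 : ℝ) 1, ‖fS k S α‖ ^ (2 * s) * ‖fS k Y α‖ ^ (2 * t)) * (X : ℝ) ^ k ≤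
      K * ((S.card : ℝ) ^ (2 * s) * (Y.card : ℝ) ^ (2 * t))) :
    (X : ℝ) ^ k ≤ K * countSums k (s + t) 0 ((s + t + 1) * X ^ k) := by
  classical
  set T := tup s S ×ˢ tup t Y with hT
  set φ : (Fin s → ℕ) × (Fin t → ℕ) → ℕ := fun w => sk k w.1 + sk k w.2 with hφ
  rw [int_prod, ← hT, ← hφ] at h
  have hcard : (T.card : ℝ) = (S.card : ℝ) ^ s * (Y.card : ℝ) ^ t := by
    rw [hT, card_product, card_tup, card_tup]
    push_cast
    ring
  have hT0 : (0 : ℝ) < T.card := by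
    have p1 : (0 : ℝ) < S.card := by exact_mod_cast hS.card_pos
    have p2 : (0 : ℝ) < Y.card := by exact_mod_cast hY.card_pos
    rw [hcard]
    positivity
  have hT2 : (T.card : ℝ) ^ 2 = (S.card : ℝ) ^ (2 * s) * (Y.card : ℝ) ^ (2 * t) := by
    rw [hcard, mul_pow, ← pow_mul, ← pow_mul, mul_comm s 2, mul_comm t 2]
  rw [← hT2] at h
  have h11 : (T.card : ℝ) ^ 2 ≤ (T.image φ).card * col T φ := by
    exact_mod_cast card_sq_le T φ
  have hXk : (0 : ℝ) < (X : ℝ) ^ k := by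
    have : (0 : ℝ) < X := by exact_mod_cast hX
    positivity
  have h12 : (T.card : ℝ) ^ 2 * (X : ℝ) ^ k ≤ (T.card : ℝ) ^ 2 * (K * (T.image φ).card) := by
    calc (T.card : ℝ) ^ 2 * (X : ℝ) ^ k ≤ ((T.image φ).card * col T φ) * (X : ℝ) ^ k :=
          mul_le_mul_of_nonneg_right h11 hXk.le
      _ = (T.image φ).card * (col T φ * (X : ℝ) ^ k) := by ring
      _ ≤ (T.image φ).card * (K * (T.card : ℝ) ^ 2) :=
          mul_le_mul_of_nonneg_left h (Nat.cast_nonneg _)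
      _ = _ := by ring
  have h13 : (X : ℝ) ^ k ≤ K * (T.image φ).card := le_of_mul_le_mul_left h12 (by positivity)
  have hK : 0 ≤ K := by
    by_contra hK
    rw [not_le] at hK
    have h14 : K * ((T.image φ).card : ℝ) ≤ 0 :=
      mul_nonpos_of_nonpos_of_nonneg hK.le (Nat.cast_nonneg _)
    linarith
  refine h13.trans (mul_le_mul_of_nonneg_left ?_ hK)
  rw [← card_sums]
  norm_cast
  apply card_le_card
  intro n hn
  obtain ⟨w, hw, rfl⟩ := mem_image.1 hn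
  rw [hT, mem_product] at hw
  unfold tup at hw
  rw [Fintype.mem_piFinset, Fintype.mem_piFinset] at hw
  unfold sums
  rw [mem_filter, mem_range]
  have hXk1 : 1 ≤ X ^ k := Nat.one_le_pow _ _ hX
  have r1 : sk k w.1 ≤ s * X ^ k := by
    unfold sk
    have := Finset.sum_le_card_nsmul Finset.univ (fun i => w.1 i ^ k) (X ^ k)
      (fun i _ => Nat.pow_le_pow_left (hSX _ (hw.1 i)) k)
    simpa using this
  have r2 : sk k w.2 ≤ t * X ^ k := by
    unfold sk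
    have := Finset.sum_le_card_nsmul Finset.univ (fun i => w.2 i ^ k) (X ^ k)
      (fun i _ => Nat.pow_le_pow_left (hYX _ (hw.2 i)) k)
    simpa using this
  constructor
  · have r3 : (s + t + 1) * X ^ k = s * X ^ k + t * X ^ k + X ^ k := by ring
    rw [r3]
    show sk k w.1 + sk k w.2 < _
    omega
  · exact Pool.Agent.Lib.MP_570bef_nt.IsSum.add ⟨w.1, rfl⟩ ⟨w.2, rfl⟩

end Pool.Agent.Lib.MP_570bef_ntLC
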